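import Pool.Agent.H81.LE.Stm

/-!
# Module main: the induction over the vertices with the potential
-/

set_option linter.unusedSectionVars false

namespace Pool.Agent.H83.LE

open Finset Pool.Agent.H81.LE

section

variable {V : Type} [Fintype V] [DecidableEq V] (G : SimpleGraph V) [DecidableRel G.Adj]
  (r : V → ℕ) (L : V → V → Finset ℕ) (D N : ℕ) (y b : ℝ)

theorem mem_kids {u v : V} : v ∈ kids G r u ↔ G.Adj u v ∧ r u < r v := by
  simp [kids]

theorem mem_pars {u v : V} : u ∈ pars G r v ↔ G.Adj u v ∧ r u < r v := by
  simp [pars]

theorem pars_iff {u v : V} : u ∈ pars G r v ↔ v ∈ kids G r u := by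
  rw [mem_kids, mem_pars]

/-- the colours blocked at `v` by the processed parents -/
def TT (g : V → V → ℕ) (t : ℕ) (v : V) : Finset ℕ :=
  ((pars G r v).filter (fun w => r w < t)).image (fun w => g w v)

/-- the number of the parents which are not processed -/
def rmn (t : ℕ) (v : V) : ℕ := ((pars G r v).filter (fun w => t ≤ r w)).card

/-- the factor of a pair -/
noncomputable def fac (g : V → V → ℕ) (t : ℕ) (x : V × ℕ) : ℝ :=
  (if x.2 ∈ TT G r g t x.1 then y else 1) * Real.exp (b * (rmn G r t x.1 : ℝ))

/-- the term of a set of pairs -/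
noncomputable def trm (g : V → V → ℕ) (t : ℕ) (F : Finset (V × ℕ)) : ℝ :=
  Real.exp (-(2 * (F.card : ℝ))) * ∏ x ∈ F, fac G r y b g t x

/-- the index set of the potential -/
def idx (t : ℕ) : Finset (Σ _ : V, Finset (V × ℕ)) :=
  (univ.filter (fun u => t ≤ r u ∧ D ≤ (kids G r u).card + 3 * N)).sigma
    (fun u => family (kids G r u) (L u) D)

/-- the processed part of the colouring is proper -/
def Valid (g : V → V → ℕ) (t : ℕ) : Prop :=
  ∀ u, r u < t → (∀ v ∈ kids G r u, g u v ∈ L u v) ∧
    (∀ v ∈ kids G r u, ∀ w ∈ kids G r u, g u v = g u w → v = w) ∧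
    (∀ w ∈ pars G r u, ∀ v ∈ kids G r u, g w u ≠ g u v) ∧
    (∀ v ∈ kids G r u, ∀ w ∈ pars G r v, r w < r u → g w v ≠ g u v)

variable {y b}

theorem fac_pos (hy : 1 ≤ y) (g : V → V → ℕ) (t : ℕ) (x : V × ℕ) : 0 < fac G r y b g t x := by
  unfold fac
  refine mul_pos ?_ (Real.exp_pos _)
  split_ifs
  · linarith
  · exact one_pos

theorem trm_nonneg (hy : 1 ≤ y) (g : V → V → ℕ) (t : ℕ) (F : Finset (V × ℕ)) :
    0 ≤ trm G r y b g t F :=
  mul_nonneg (Real.exp_pos _).le (Finset.prod_nonneg fun x _ => (fac_pos G r hy g t x).le)

/-- the colours of the star -/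
noncomputable def upd (g : V → V → ℕ) (u : V) (M : Finset (V × ℕ)) : V → V → ℕ :=
  open scoped Classical in
  Function.update g u (fun v => if h : ∃ c, (v, c) ∈ M then h.choose else 0)

theorem upd_ne (g : V → V → ℕ) {u w : V} (M : Finset (V × ℕ)) (h : w ≠ u) :
    upd g u M w = g w := by
  unfold upd
  exact Function.update_of_ne h _ _

theorem upd_mem (g : V → V → ℕ) {u v : V} {M : Finset (V × ℕ)} (h : ∃ c, (v, c) ∈ M) :
    (v, upd g u M u v) ∈ M := by
  unfold upd
  rw [Function.update_self, dif_pos h]
  exact h.choose_spec

variable {G r}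

theorem fac_step (hr : Function.Injective r) (hy : 1 ≤ y) (g : V → V → ℕ) {u : V} {t : ℕ}
    (hu : r u = t) {M : Finset (V × ℕ)} (hM : ∀ v ∈ kids G r u, ∃ c, (v, c) ∈ M) (x : V × ℕ) :
    fac G r y b (upd g u M) (t + 1) x ≤ fac G r y b g t x *
      (if x.1 ∈ kids G r u then Real.exp (-b) * (if x ∈ M then y else 1) else 1) := by
  have hy0 : 0 < y := by linarith
  have h1 : x.2 ∈ TT G r (upd g u M) (t + 1) x.1 → x.2 ∈ TT G r g t x.1 ∨
      (x.1 ∈ kids G r u ∧ x ∈ M) := by
    intro h
    obtain ⟨w, hw, hw2⟩ := Finset.mem_image.1 h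
    obtain ⟨hw3, hw4⟩ := Finset.mem_filter.1 hw
    by_cases hwu : w = u
    · right
      subst hwu
      have h2 := (pars_iff G r).1 hw3
      refine ⟨h2, ?_⟩
      have h3 := upd_mem g (u := w) (hM _ h2)
      rw [hw2] at h3
      exact h3
    · left
      rw [upd_ne g M hwu] at hw2
      refine Finset.mem_image.2 ⟨w, Finset.mem_filter.2 ⟨hw3, ?_⟩, hw2⟩
      have h4 : r w ≠ t := fun h5 => hwu (hr (h5.trans hu.symm))
      omega
  have h2 : (rmn G r t x.1 : ℝ) = rmn G r (t + 1) x.1 + (if x.1 ∈ kids G r u then 1 else 0) := by
    unfold rmn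
    split_ifs with h3
    · have h4 : (pars G r x.1).filter (fun w => t ≤ r w) =
          insert u ((pars G r x.1).filter (fun w => t + 1 ≤ r w)) := by
        ext w
        rw [Finset.mem_insert, Finset.mem_filter, Finset.mem_filter]
        constructor
        · rintro ⟨h5, h6⟩
          by_cases hwu : w = u
          · exact Or.inl hwu
          · right
            refine ⟨h5, ?_⟩
            have h4 : r w ≠ t := fun h5 => hwu (hr (h5.trans hu.symm))
            omega
        · rintro (rfl | ⟨h5, h6⟩)
          · exact ⟨(pars_iff G r).2 h3, hu.ge⟩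
          · exact ⟨h5, by omega⟩
      rw [h4, Finset.card_insert_of_notMem]
      · push_cast
        ring
      · rw [Finset.mem_filter]
        rintro ⟨_, h5⟩
        omega
    · have h4 : (pars G r x.1).filter (fun w => t ≤ r w) =
          (pars G r x.1).filter (fun w => t + 1 ≤ r w) := by
        ext w
        rw [Finset.mem_filter, Finset.mem_filter]
        constructor
        · rintro ⟨h5, h6⟩
          refine ⟨h5, ?_⟩
          have h4 : r w ≠ t := by
            intro h7
            have h8 : w = u := hr (h7.trans hu.symm)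
            rw [h8] at h5
            exact h3 ((pars_iff G r).1 h5)
          omega
        · rintro ⟨h5, h6⟩
          exact ⟨h5, by omega⟩
      rw [h4, add_zero]
  have h3 : (if x.2 ∈ TT G r (upd g u M) (t + 1) x.1 then y else 1) ≤
      (if x.2 ∈ TT G r g t x.1 then y else 1) *
        (if x.1 ∈ kids G r u then (if x ∈ M then y else 1) else 1) := by
    by_cases h4 : x.2 ∈ TT G r (upd g u M) (t + 1) x.1
    · rw [if_pos h4]
      rcases h1 h4 with h5 | ⟨h5, h6⟩
      · rw [if_pos h5]
        refine le_mul_of_one_le_right hy0.le ?_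
        split_ifs <;> linarith
      · rw [if_pos h5, if_pos h6]
        refine le_mul_of_one_le_left hy0.le ?_
        split_ifs <;> linarith
    · rw [if_neg h4]
      refine one_le_mul_of_one_le_of_one_le ?_ ?_
      · split_ifs <;> linarith
      · split_ifs <;> linarith
  have h4 : Real.exp (b * (rmn G r (t + 1) x.1 : ℝ)) = Real.exp (b * (rmn G r t x.1 : ℝ)) *
      (if x.1 ∈ kids G r u then Real.exp (-b) else 1) := by
    rw [h2]
    split_ifs
    · rw [← Real.exp_add]
      congr 1
      ring
    · rw [add_zero, mul_one]
  unfold fac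
  rw [h4]
  calc (if x.2 ∈ TT G r (upd g u M) (t + 1) x.1 then y else 1) *
        (Real.exp (b * (rmn G r t x.1 : ℝ)) * (if x.1 ∈ kids G r u then Real.exp (-b) else 1))
      ≤ ((if x.2 ∈ TT G r g t x.1 then y else 1) *
        (if x.1 ∈ kids G r u then (if x ∈ M then y else 1) else 1)) *
        (Real.exp (b * (rmn G r t x.1 : ℝ)) * (if x.1 ∈ kids G r u then Real.exp (-b) else 1)) := by
        refine mul_le_mul_of_nonneg_right h3 (mul_nonneg (Real.exp_pos _).le ?_)
        split_ifs
        · exact (Real.exp_pos _).le
        · exact zero_le_one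
    _ = _ := by
        split_ifs <;> ring

theorem trm_step (hr : Function.Injective r) (hy : 1 ≤ y) (g : V → V → ℕ) {u : V} {t : ℕ}
    (hu : r u = t) {M : Finset (V × ℕ)} (hM : ∀ v ∈ kids G r u, ∃ c, (v, c) ∈ M)
    (F : Finset (V × ℕ)) :
    trm G r y b (upd g u M) (t + 1) F ≤
      (trm G r y b g t F * Real.exp (-b) ^ (F.filter (fun x => x.1 ∈ kids G r u)).card) *
        y ^ ((F.filter (fun x => x.1 ∈ kids G r u)) ∩ M).card := by
  have h1 : ∏ x ∈ F, fac G r y b (upd g u M) (t + 1) x ≤ ∏ x ∈ F, (fac G r y b g t x *
      (if x.1 ∈ kids G r u then Real.exp (-b) * (if x ∈ M then y else 1) else 1)) :=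
    Finset.prod_le_prod (fun x _ => (fac_pos G r hy _ _ x).le) fun x _ =>
      fac_step hr hy g hu hM x
  have h2 : ∏ x ∈ F, (if x.1 ∈ kids G r u then Real.exp (-b) * (if x ∈ M then y else 1) else 1) =
      Real.exp (-b) ^ (F.filter (fun x => x.1 ∈ kids G r u)).card *
        y ^ ((F.filter (fun x => x.1 ∈ kids G r u)) ∩ M).card := by
    rw [← Finset.prod_filter, Finset.prod_mul_distrib, Finset.prod_const, ← Finset.prod_filter,
      Finset.prod_const, Finset.filter_mem_eq_inter]
  rw [Finset.prod_mul_distrib, h2] at h1
  unfold trm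
  calc Real.exp (-(2 * (F.card : ℝ))) * ∏ x ∈ F, fac G r y b (upd g u M) (t + 1) x
      ≤ Real.exp (-(2 * (F.card : ℝ))) * ((∏ x ∈ F, fac G r y b g t x) *
        (Real.exp (-b) ^ (F.filter (fun x => x.1 ∈ kids G r u)).card *
        y ^ ((F.filter (fun x => x.1 ∈ kids G r u)) ∩ M).card)) :=
        mul_le_mul_of_nonneg_left h1 (Real.exp_pos _).le
    _ = _ := by ring

end

/-- **Module main.** -/
theorem t_main (h1 : S_star) (h2 : S_pot) (h3 : S_count) : S_main := by
  intro V _ _ G _ r L D N d hr hN hND hdN hdN2 hL hD hd hbig
  obtain ⟨y, hyd⟩ : ∃ y : ℝ, y = Real.exp 2000 := ⟨_, rfl⟩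
  have hy : 1 ≤ y := by rw [hyd]; exact Real.one_le_exp (by norm_num)
  have hy0 : 0 < y := by linarith
  have hN0 : (0 : ℝ) < N := by exact_mod_cast hN
  obtain ⟨θ, hθd⟩ : ∃ θ : ℝ, θ = 3 / (N : ℝ) := ⟨_, rfl⟩
  have hθ : 0 ≤ θ := by rw [hθd]; positivity
  obtain ⟨b, hb⟩ : ∃ b : ℝ, b = y * θ := ⟨_, rfl⟩
  have hb0 : 0 ≤ b := by rw [hb]; positivity
  have hbd : b * d ≤ 1 := by
    rw [hb, hθd, hyd]
    have : Real.exp 2000 * (3 / (N : ℝ)) * d = (3 * Real.exp 2000 * d) / N := by ring
    rw [this, div_le_one hN0]
    exact hdN2
  have hD8 : 100000000 ≤ D := by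
    calc 100000000 = 100000000 * 1 := by norm_num
      _ ≤ 100000000 * N := Nat.mul_le_mul_left _ hN
      _ ≤ D := hND
  -- the states
  have key : ∀ t : ℕ, ∃ g : V → V → ℕ, Valid G r L g t ∧
      ∑ p ∈ idx G r L D N t, trm G r y b g t p.2 < 1 := by
    intro t
    induction t with
    | zero =>
      refine ⟨fun _ _ => 0, fun u hu => absurd hu (Nat.not_lt_zero _), ?_⟩
      have e1 : ∀ F : Finset (V × ℕ), trm G r y b (fun _ _ => 0) 0 F ≤ Real.exp (-(F.card : ℝ)) := by
        intro F
        unfold trm
        have e2 : ∏ x ∈ F, fac G r y b (fun _ _ => 0) 0 x ≤ ∏ _x ∈ F, Real.exp 1 := by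
          refine Finset.prod_le_prod (fun x _ => (fac_pos G r hy _ _ x).le) fun x _ => ?_
          unfold fac
          have e3 : x.2 ∉ TT G r (fun _ _ => 0) 0 x.1 := by
            unfold TT
            simp
          rw [if_neg e3, one_mul]
          refine Real.exp_le_exp.2 (le_trans ?_ hbd)
          refine mul_le_mul_of_nonneg_left ?_ hb0
          have e4 : rmn G r 0 x.1 ≤ d := (Finset.card_filter_le _ _).trans (hd x.1)
          exact_mod_cast e4
        rw [Finset.prod_const, ← Real.exp_nat_mul, mul_one] at e2
        calc Real.exp (-(2 * (F.card : ℝ))) * ∏ x ∈ F, fac G r y b (fun _ _ => 0) 0 x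
            ≤ Real.exp (-(2 * (F.card : ℝ))) * Real.exp (F.card : ℝ) :=
              mul_le_mul_of_nonneg_left e2 (Real.exp_pos _).le
          _ = Real.exp (-(F.card : ℝ)) := by
              rw [← Real.exp_add]
              congr 1
              ring
      calc ∑ p ∈ idx G r L D N 0, trm G r y b (fun _ _ => 0) 0 p.2
          ≤ ∑ p ∈ idx G r L D N 0, Real.exp (-(p.2.card : ℝ)) :=
            Finset.sum_le_sum fun p _ => e1 p.2
        _ = ∑ u ∈ univ.filter (fun u => 0 ≤ r u ∧ D ≤ (kids G r u).card + 3 * N),
            ∑ F ∈ family (kids G r u) (L u) D, Real.exp (-(F.card : ℝ)) := by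
            unfold idx
            rw [Finset.sum_sigma]
        _ ≤ ∑ u ∈ univ.filter (fun u => 0 ≤ r u ∧ D ≤ (kids G r u).card + 3 * N),
            Real.exp (-(D : ℝ) / 400) := by
            refine Finset.sum_le_sum fun u _ => ?_
            refine h3 V (kids G r u) (L u) D hD8 (hL u) ?_
            exact (Nat.le_add_right _ _).trans (hD u)
        _ = ((univ.filter (fun u => D ≤ (kids G r u).card + 3 * N)).card : ℝ) *
            Real.exp (-(D : ℝ) / 400) := by
            rw [Finset.sum_const, nsmul_eq_mul]
            simp only [Nat.zero_le, true_and]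
        _ < 1 := hbig
    | succ t ih =>
      obtain ⟨g, hg, hΦ⟩ := ih
      by_cases hex : ∃ u, r u = t
      · obtain ⟨u, hu⟩ := hex
        -- the sets `T` are small
        have hT : ∀ v, (TT G r g t v).card ≤ N := by
          intro v
          refine Finset.card_image_le.trans ?_
          exact (Finset.card_filter_le _ _).trans ((hd v).trans hdN)
        have hC : (kids G r u).card + (TT G r g t u).card ≤ D := by
          refine le_trans ?_ (hD u)
          refine Nat.add_le_add_left ?_ _
          exact Finset.card_image_le.trans (Finset.card_filter_le _ _)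
        have hgood : D ≤ (kids G r u).card + 3 * N →
            Good (kids G r u) (L u) (TT G r g t) D := by
          intro hbu F hF
          have hp : (⟨u, F⟩ : Σ _ : V, Finset (V × ℕ)) ∈ idx G r L D N t := by
            unfold idx
            rw [Finset.mem_sigma]
            exact ⟨Finset.mem_filter.2 ⟨Finset.mem_univ _, hu.ge, hbu⟩, hF⟩
          have e1 : trm G r y b g t F < 1 := by
            refine lt_of_le_of_lt ?_ hΦ
            exact Finset.single_le_sum (f := fun p : Σ _ : V, Finset (V × ℕ) =>
              trm G r y b g t p.2) (fun p _ => trm_nonneg G r hy g t p.2) hp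
          have e2 : y ^ (F.filter (fun x => x.2 ∈ TT G r g t x.1)).card ≤
              ∏ x ∈ F, fac G r y b g t x := by
            rw [← Finset.prod_const, Finset.prod_filter]
            refine Finset.prod_le_prod (fun x _ => ?_) fun x _ => ?_
            · split_ifs
              · exact hy0.le
              · exact zero_le_one
            · unfold fac
              refine le_mul_of_one_le_right ?_ (Real.one_le_exp (by positivity))
              split_ifs
              · exact hy0.le
              · exact zero_le_one
          unfold trm at e1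
          have e3 : Real.exp (-(2 * (F.card : ℝ))) *
              y ^ (F.filter (fun x => x.2 ∈ TT G r g t x.1)).card < 1 :=
            lt_of_le_of_lt (mul_le_mul_of_nonneg_left e2 (Real.exp_pos _).le) e1
          rw [hyd, ← Real.exp_nat_mul, ← Real.exp_add, Real.exp_lt_one_iff] at e3
          have e4 : (((F.filter (fun x => x.2 ∈ TT G r g t x.1)).card * 2000 : ℕ) : ℝ) <
              ((2 * F.card : ℕ) : ℝ) := by
            push_cast
            linarith
          have e5 := Nat.cast_lt.1 e4
          omega
        have hspr := h1 V (kids G r u) (L u) (TT G r g t) (TT G r g t u) D N hN hND (hL u)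
          (fun v _ => hT v) (hT u) hC hgood
        rw [← hθd] at hspr
        obtain ⟨M, hM, hMΦ⟩ := h2 (V × ℕ) θ y _ (Σ _ : V, Finset (V × ℕ))
          (idx G r L D N (t + 1))
          (fun p => trm G r y b g t p.2 *
            Real.exp (-b) ^ (p.2.filter (fun x => x.1 ∈ kids G r u)).card)
          (fun p => p.2.filter (fun x => x.1 ∈ kids G r u)) hθ hy hspr
          (fun p _ => mul_nonneg (trm_nonneg G r hy g t p.2) (pow_nonneg (Real.exp_pos _).le _))
        refine ⟨upd g u M, ?_, ?_⟩
        · intro u' hu'
          rcases Nat.lt_succ_iff_lt_or_eq.1 hu' with hlt | heq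
          · obtain ⟨a1, a2, a3, a4⟩ := hg u' hlt
            have hne : u' ≠ u := by
              rintro rfl
              omega
            rw [upd_ne g M hne]
            refine ⟨a1, a2, fun w hw v hv => ?_, fun v hv w hw hlt2 => ?_⟩
            · have hwu : w ≠ u := by
                rintro rfl
                have := ((mem_pars G r).1 hw).2
                omega
              rw [upd_ne g M hwu]
              exact a3 w hw v hv
            · have hwu : w ≠ u := by
                rintro rfl
                omega
              rw [upd_ne g M hwu]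
              exact a4 v hv w hw hlt2
          · have huu : u' = u := hr (heq.trans hu.symm)
            subst huu
            have hmem : ∀ v ∈ kids G r u', upd g u' M u' v ∈
                (L u' v \ TT G r g t u') \ TT G r g t v := fun v hv =>
              (hM.mem _ (upd_mem g (hM.cover v hv))).2
            refine ⟨fun v hv => ?_, fun v hv w hw hvw => ?_, fun w hw v hv => ?_,
              fun v hv w hw hlt2 => ?_⟩
            · exact (Finset.mem_sdiff.1 (Finset.mem_sdiff.1 (hmem v hv)).1).1
            · have b1 := upd_mem g (u := u') (hM.cover v hv)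
              have b2 := upd_mem g (u := u') (hM.cover w hw)
              have b3 := hM.col _ b1 _ b2 hvw
              exact (Prod.ext_iff.1 b3).1
            · have hlt3 := ((mem_pars G r).1 hw).2
              have hwu : w ≠ u' := by
                rintro rfl
                omega
              rw [upd_ne g M hwu]
              intro hEq
              refine (Finset.mem_sdiff.1 (Finset.mem_sdiff.1 (hmem v hv)).1).2 ?_
              rw [← hEq]
              exact Finset.mem_image.2 ⟨w, Finset.mem_filter.2 ⟨hw, by omega⟩, rfl⟩
            · have hwu : w ≠ u' := by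
                rintro rfl
                omega
              rw [upd_ne g M hwu]
              intro hEq
              refine (Finset.mem_sdiff.1 (hmem v hv)).2 ?_
              rw [← hEq]
              exact Finset.mem_image.2 ⟨w, Finset.mem_filter.2 ⟨hw, by omega⟩, rfl⟩
        · have c1 : ∑ p ∈ idx G r L D N (t + 1), trm G r y b (upd g u M) (t + 1) p.2 ≤
              ∑ p ∈ idx G r L D N (t + 1), (trm G r y b g t p.2 *
                Real.exp (-b) ^ (p.2.filter (fun x => x.1 ∈ kids G r u)).card) *
                y ^ ((p.2.filter (fun x => x.1 ∈ kids G r u)) ∩ M).card :=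
            Finset.sum_le_sum fun p _ => trm_step hr hy g hu hM.cover p.2
          have c2 : 1 + (y - 1) * θ ≤ Real.exp b := by
            have c3 := Real.add_one_le_exp b
            have c4 : (y - 1) * θ ≤ b := by
              rw [hb]
              exact mul_le_mul_of_nonneg_right (by linarith) hθ
            linarith
          have c5 : ∑ p ∈ idx G r L D N (t + 1), (trm G r y b g t p.2 *
                Real.exp (-b) ^ (p.2.filter (fun x => x.1 ∈ kids G r u)).card) *
                (1 + (y - 1) * θ) ^ (p.2.filter (fun x => x.1 ∈ kids G r u)).card ≤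
              ∑ p ∈ idx G r L D N (t + 1), trm G r y b g t p.2 := by
            refine Finset.sum_le_sum fun p _ => ?_
            have c6 : (1 + (y - 1) * θ) ^ (p.2.filter (fun x => x.1 ∈ kids G r u)).card ≤
                Real.exp b ^ (p.2.filter (fun x => x.1 ∈ kids G r u)).card := by
              refine pow_le_pow_left₀ ?_ c2 _
              have : 0 ≤ (y - 1) * θ := mul_nonneg (by linarith) hθ
              linarith
            calc (trm G r y b g t p.2 *
                Real.exp (-b) ^ (p.2.filter (fun x => x.1 ∈ kids G r u)).card) *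
                (1 + (y - 1) * θ) ^ (p.2.filter (fun x => x.1 ∈ kids G r u)).card
                ≤ (trm G r y b g t p.2 *
                Real.exp (-b) ^ (p.2.filter (fun x => x.1 ∈ kids G r u)).card) *
                Real.exp b ^ (p.2.filter (fun x => x.1 ∈ kids G r u)).card :=
                  mul_le_mul_of_nonneg_left c6
                    (mul_nonneg (trm_nonneg G r hy g t p.2) (pow_nonneg (Real.exp_pos _).le _))
              _ = trm G r y b g t p.2 := by
                  rw [mul_assoc, ← mul_pow, ← Real.exp_add, neg_add_cancel, Real.exp_zero,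
                    one_pow, mul_one]
          have c7 : ∑ p ∈ idx G r L D N (t + 1), trm G r y b g t p.2 ≤
              ∑ p ∈ idx G r L D N t, trm G r y b g t p.2 := by
            refine Finset.sum_le_sum_of_subset_of_nonneg ?_ fun p _ _ =>
              trm_nonneg G r hy g t p.2
            unfold idx
            refine Finset.sigma_mono ?_ fun _ => subset_rfl
            intro w hw
            obtain ⟨_, hw2, hw3⟩ := Finset.mem_filter.1 hw
            exact Finset.mem_filter.2 ⟨Finset.mem_univ _, by omega, hw3⟩
          exact lt_of_le_of_lt (c1.trans (hMΦ.trans (c5.trans c7))) hΦ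
      · have hne : ∀ w, r w ≠ t := fun w hw => hex ⟨w, hw⟩
        refine ⟨g, fun u hu => hg u ?_, ?_⟩
        · have := hne u
          omega
        · have d1 : ∀ v, TT G r g (t + 1) v = TT G r g t v := by
            intro v
            unfold TT
            congr 1
            refine Finset.filter_congr fun w _ => ?_
            have := hne w
            omega
          have d2 : ∀ v, rmn G r (t + 1) v = rmn G r t v := by
            intro v
            unfold rmn
            congr 1
            refine Finset.filter_congr fun w _ => ?_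
            have := hne w
            omega
          have d3 : idx G r L D N (t + 1) = idx G r L D N t := by
            unfold idx
            congr 1
            refine Finset.filter_congr fun w _ => ?_
            have := hne w
            omega
          have d4 : ∀ F, trm G r y b g (t + 1) F = trm G r y b g t F := by
            intro F
            unfold trm fac
            simp only [d1, d2]
          rw [d3]
          simp only [d4]
          exact hΦ
  obtain ⟨g, hg, -⟩ := key (univ.sup r + 1)
  have hlt : ∀ u, r u < univ.sup r + 1 := fun u =>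
    Nat.lt_succ_of_le (Finset.le_sup (Finset.mem_univ u))
  refine ⟨g, fun u => (hg u (hlt u)).1, fun u => (hg u (hlt u)).2.1, fun v u hu w hw huw => ?_,
    fun u => (hg u (hlt u)).2.2.1⟩
  by_contra hne
  have hrne : r u ≠ r w := fun h => hne (hr h)
  rcases Nat.lt_or_gt_of_ne hrne with h | h
  · exact (hg w (hlt w)).2.2.2 v ((pars_iff G r).1 hw) u hu h huw
  · exact (hg u (hlt u)).2.2.2 v ((pars_iff G r).1 hu) w hw h huw.symm

end Pool.Agent.H83.LE
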