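import Pool.Agent.H81.LE.Stm

/-!
# Module greedy: random greedy injective choices
-/

namespace Pool.Agent.H83.LE

open Finset Pool.Agent.H81.LE

/-- the point mass -/
theorem spread_point {E : Type} [DecidableEq E] {θ : ℝ} {P : Finset E → Prop} (h0 : 0 ≤ θ)
    (hP : P ∅) : Spread θ P := by
  refine ⟨{∅}, fun _ => 1, fun M hM => ?_, by simp, fun J => ?_⟩
  · rw [Finset.mem_singleton] at hM
    subst hM
    exact ⟨hP, zero_le_one⟩
  · rcases J.eq_empty_or_nonempty with rfl | hJ
    · simp
    · have h1 : ({∅} : Finset (Finset E)).filter (fun M => J ⊆ M) = ∅ := by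
        refine Finset.filter_eq_empty_iff.2 fun M hM => ?_
        rw [Finset.mem_singleton] at hM
        subst hM
        intro h
        exact hJ.ne_empty (Finset.subset_empty.1 h)
      rw [h1, Finset.sum_empty]
      exact pow_nonneg h0 _

/-- the uniform choice of one element -/
theorem spread_uniform {E : Type} [DecidableEq E] {N : ℕ} (hN : 0 < N) (B : Finset E)
    (hB : N ≤ B.card) {P : Finset E → Prop} (hP : ∀ c ∈ B, P {c}) :
    Spread (1 / (N : ℝ)) P := by
  have hB0 : 0 < B.card := lt_of_lt_of_le hN hB
  have hB1 : (0 : ℝ) < B.card := by exact_mod_cast hB0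
  have hN1 : (0 : ℝ) < N := by exact_mod_cast hN
  refine ⟨B.image (fun c => {c}), fun _ => 1 / (B.card : ℝ), fun M hM => ?_, ?_, fun J => ?_⟩
  · obtain ⟨c, hc, rfl⟩ := Finset.mem_image.1 hM
    exact ⟨hP c hc, by positivity⟩
  · rw [Finset.sum_const, Finset.card_image_of_injective _ Finset.singleton_injective,
      nsmul_eq_mul]
    field_simp
  · rcases J.eq_empty_or_nonempty with rfl | hJ
    · simp only [Finset.empty_subset, Finset.filter_true, Finset.card_empty, pow_zero]
      rw [Finset.sum_const, Finset.card_image_of_injective _ Finset.singleton_injective,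
        nsmul_eq_mul]
      apply le_of_eq
      field_simp
    · obtain ⟨e, he⟩ := hJ
      have h1 : (B.image (fun c => ({c} : Finset E))).filter (fun M => J ⊆ M) ⊆ {{e}} := by
        intro M hM
        obtain ⟨h2, h3⟩ := Finset.mem_filter.1 hM
        obtain ⟨c, _, rfl⟩ := Finset.mem_image.1 h2
        have h4 : e = c := Finset.mem_singleton.1 (h3 he)
        rw [h4]
        exact Finset.mem_singleton_self _
      by_cases h5 : J.card = 1
      · rw [h5, pow_one]
        calc ∑ M ∈ (B.image (fun c => ({c} : Finset E))).filter (fun M => J ⊆ M),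
              1 / (B.card : ℝ) ≤ ∑ M ∈ ({{e}} : Finset (Finset E)), 1 / (B.card : ℝ) :=
              Finset.sum_le_sum_of_subset_of_nonneg h1 fun _ _ _ => by positivity
          _ = 1 / (B.card : ℝ) := by rw [Finset.sum_singleton]
          _ ≤ 1 / (N : ℝ) := by
              apply one_div_le_one_div_of_le hN1
              exact_mod_cast hB
      · have h6 : (B.image (fun c => ({c} : Finset E))).filter (fun M => J ⊆ M) = ∅ := by
          refine Finset.filter_eq_empty_iff.2 fun M hM h7 => ?_
          obtain ⟨c, _, rfl⟩ := Finset.mem_image.1 hM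
          have h8 := Finset.card_le_card h7
          rw [Finset.card_singleton] at h8
          have h9 : 0 < J.card := Finset.card_pos.2 ⟨e, he⟩
          omega
        rw [h6, Finset.sum_empty]
        positivity

/-- **Module greedy.** -/
theorem t_greedy (h : S_rows) : S_greedy := by
  intro V _ N X A hN
  have hθ : (0 : ℝ) ≤ 1 / (N : ℝ) := by positivity
  induction X using Finset.induction_on with
  | empty =>
    intro _
    exact spread_point hθ ⟨by simp, by simp, by simp, by simp⟩
  | insert v X hv ih =>
    intro hA
    have h1 : Spread (1 / (N : ℝ)) (IsStar X A) := by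
      refine ih fun w hw => ?_
      have h2 := hA w (Finset.mem_insert_of_mem hw)
      rw [Finset.card_insert_of_notMem hv] at h2
      omega
    have h2 := h (V × ℕ) (1 / (N : ℝ)) (fun x => x.1 ≠ v) (IsStar X A)
      (fun M M' => ∃ c, M' = {(v, c)} ∧ c ∈ A v ∧ c ∉ M.image Prod.snd) hθ
      (fun M hM x hx hxv => hv (hxv ▸ (hM.mem x hx).1))
      (fun M M' _ hQ x hx => by
        obtain ⟨c, rfl, _⟩ := hQ
        rw [Finset.mem_singleton] at hx
        subst hx
        exact fun h => h rfl)
      h1 (fun M hM => by
        have h3 : M.card ≤ X.card := by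
          refine Finset.card_le_card_of_injOn Prod.fst (fun x hx => (hM.mem x hx).1) ?_
          intro x hx y hy hxy
          exact hM.row x hx y hy hxy
        have h4 := hA v (Finset.mem_insert_self v X)
        rw [Finset.card_insert_of_notMem hv] at h4
        have h5 : (M.image Prod.snd).card ≤ M.card := Finset.card_image_le
        have h6 := Finset.le_card_sdiff (M.image Prod.snd) (A v)
        refine spread_uniform hN ((A v \ M.image Prod.snd).image fun c => (v, c)) ?_ ?_
        · rw [Finset.card_image_of_injective _ (fun c c' h => (Prod.ext_iff.1 h).2)]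
          omega
        · intro x hx
          obtain ⟨c, hc, rfl⟩ := Finset.mem_image.1 hx
          obtain ⟨h7, h8⟩ := Finset.mem_sdiff.1 hc
          exact ⟨c, rfl, h7, h8⟩)
    refine h2.mono hθ le_rfl ?_
    rintro K ⟨M, M', hM, ⟨c, rfl, hc, hc'⟩, rfl⟩
    have hc'' : ∀ x ∈ M, x.2 ≠ c := by
      intro x hx h3
      exact hc' (Finset.mem_image.2 ⟨x, hx, h3⟩)
    have hv' : ∀ x ∈ M, x.1 ≠ v := fun x hx hxv => hv (hxv ▸ (hM.mem x hx).1)
    refine ⟨fun x hx => ?_, fun w hw => ?_, fun x hx y hy hxy => ?_, fun x hx y hy hxy => ?_⟩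
    · rcases Finset.mem_union.1 hx with hx | hx
      · exact ⟨Finset.mem_insert_of_mem (hM.mem x hx).1, (hM.mem x hx).2⟩
      · rw [Finset.mem_singleton] at hx
        subst hx
        exact ⟨Finset.mem_insert_self _ _, hc⟩
    · rcases Finset.mem_insert.1 hw with rfl | hw
      · exact ⟨c, Finset.mem_union_right _ (Finset.mem_singleton_self _)⟩
      · obtain ⟨c', h3⟩ := hM.cover w hw
        exact ⟨c', Finset.mem_union_left _ h3⟩
    · rcases Finset.mem_union.1 hx with hx | hx <;> rcases Finset.mem_union.1 hy with hy | hy
      · exact hM.row x hx y hy hxy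
      · rw [Finset.mem_singleton] at hy
        subst hy
        exact absurd hxy (hv' x hx)
      · rw [Finset.mem_singleton] at hx
        subst hx
        exact absurd hxy.symm (hv' y hy)
      · rw [Finset.mem_singleton] at hx hy
        rw [hx, hy]
    · rcases Finset.mem_union.1 hx with hx | hx <;> rcases Finset.mem_union.1 hy with hy | hy
      · exact hM.col x hx y hy hxy
      · rw [Finset.mem_singleton] at hy
        subst hy
        exact absurd hxy (hc'' x hx)
      · rw [Finset.mem_singleton] at hx
        subst hx
        exact absurd hxy.symm (hc'' y hy)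
      · rw [Finset.mem_singleton] at hx hy
        rw [hx, hy]

end Pool.Agent.H83.LE
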